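import Pool.Agent.K4H90.Cub.Main

/-!
# Linear algebra over all fields together needs polynomial dimension on graphs of degree 3

There is a constant `C` such that for every `k ≥ 1` there are two non-isomorphic graphs of maximum
degree at most `3` with at most `C k ^ 12` vertices which the `k`-dimensional invertible-map test
over all fields of all characteristics at once does not distinguish: there is one partition of
the `k`-tuples such that the class matrices of tuples in the same class are simultaneously similar
over all fields. So on graphs with `n` vertices of maximum degree `3` the test needs a
dimension of order at least `n ^ (1/12)`.

Isomorphism of graphs of maximum degree `3` can be decided in polynomial time (Luks 1982). So the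
method that combines the Weisfeiler-Leman algorithm with linear algebra over all fields fails on a
classical easy case of graph isomorphism, and the logics of Dawar, Grädel and Pakusa with all
linear-algebraic operators do not capture polynomial time on graphs of degree at most `3`. The known
lower bounds which hold for all characteristics together (Lichter; Dawar, Grädel and Lichter)
are for structures of unbounded degree, made from the rings `Z_{2^i}` with `i` growing, and
their size is exponential in a power of `k`.

Proof idea. The graphs encode a system of flows modulo `2 ^ s`, `2 ^ s ≤ 8 k`, on the complete
bipartite graph with `n₁ + K` rows and `n₂ + K + 1` columns, `K = 4 k + 2`, whose total excess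
is `2 ^ (s - 1)`. It has no solution, but every local solution on `K` rows, columns and edges
extends. Over the fields of characteristic different from `2` local solutions can be averaged. In
characteristic `2` we use a formal linear combination of partial matchings between `n₁` rows and
`n₂` columns, `n₁ - n₂ = 2 ^ (s - 1)`, `n₁ + n₂ = 4 ^ (s - 1)`, which an observer of
`2 ^ (s - 1) - 1 ≥ 2 k` rows and columns cannot distinguish from a combination of perfect
matchings (a design in the sense of Beame and Riis). It is defined by recursion: the step from a
combination for `d` rows and columns to one for `2 d + 1` replaces every row and column by
`p + 2` of them (here `p = 2`), and is done for all primes `p`. The group elements are passed on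
with small degree: every node has a triple of group elements with sum zero, and a node has a value
`(a, b)` and passes on the first entry, the second entry or the third one along a chain of
maps `(a, b) ↦ (a, 2 b)`, which are at most two to one and forget the other entry after `s` steps.
Rows and columns are replaced by cycles of nodes along which partial sums are passed on. Every
link has its own name, given by the length of pendant paths, so that isomorphisms give
solutions of the system.
-/

set_option autoImplicit false

namespace Pool.Agent.Results.MP_128e7d_lc.AllFieldsDegreeThree

open Pool.Agent.TH658.Dg

theorem result : ∃ C : ℕ, ∀ k : ℕ, 1 ≤ k →
    ∃ (V : Type) (_ : Fintype V) (G H : SimpleGraph V), Fintype.card V ≤ C * k ^ 12 ∧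
      (∀ v, (G.neighborSet v).ncard ≤ 3) ∧ (∀ v, (H.neighborSet v).ncard ≤ 3) ∧
      IsEmpty (G ≃g H) ∧ IMEquiv 1 k G.Adj H.Adj :=
  ⟨10 ^ 11, Pool.Agent.K4H90.Cub.exists_cubic⟩

end Pool.Agent.Results.MP_128e7d_lc.AllFieldsDegreeThree
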