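import Pool.Agent.K4H90.AllP.Main

/-!
# Linear algebra over all fields together needs polynomial dimension on tournaments

There is a constant `C` such that for every `k ≥ 1` there are two non-isomorphic tournaments with at
most `C k ^ 10` vertices which the `k`-dimensional invertible-map test over all fields of all
characteristics at once does not distinguish: there is one partition of the `k`-tuples such that the
class matrices of tuples in the same class are simultaneously similar over all fields. So on
tournaments with `n` vertices the test needs a dimension of order at least `n ^ (1/10)`, and the
algorithm that it gives takes time at least `n ^ (c n ^ (1/10))`.

(The earlier result `TournamentInvertibleMaps` has, for each of the primes 3 and 5, a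
partition which is stable for the fields of characteristic different from this prime. A test which
uses the fields of characteristic 3 and the other fields together can be stronger. The
constructions in the literature for all characteristics together, for general structures, have
a ring `Z_{2^i}` that grows with `k` and base graphs of large degree and girth, whose size is
exponential in a power of `k`.)

Proof idea. Let `p > k` be a prime. The tournaments encode a system of flows modulo `p ^ 2` on the
complete bipartite graph with `2 p - 1 + K` rows and `p - 1 + K` columns, `K = 4 k + 2`, with total
excess `- p`. It has no solution, but every local solution on `K` rows, columns and edges extends.
Over the fields of characteristic different from `p` local solutions can be averaged. In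
characteristic `p` we do not average: given a local solution `M₀` on `k` rows and columns, choose
`2 p - 1` rows and `p - 1` columns not touched by it, and a function `y` which is balanced except
for an excess `1` at each of these rows and `- 1` at each of these columns; this is possible
because `(2 p - 1) - (p - 1) = p`. For each injection `σ` of the `p - 1` columns into the `2 p - 1`
rows, push `1` along the edges of `σ`; this repairs all columns and the matched rows. An observer
of at most `2 k < p` rows, columns and edges sees an error only if it sees an unmatched row. If
it sees a row `u` that is not matched, the cyclic shift of `p` unseen rows acts without fixed point
on the injections that miss `u` and look the same to the observer: the range of a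
fixed injection would be the set of all other rows, one of which is `u`. Hence these
injections cancel modulo `p`, and the sum over all injections of the permutation matrices behaves
as if all of them were solutions. The sum is an invertible matrix, because the number
`(2 p - 1) ⋯ (p + 1)` of injections is not divisible by `p` and the power with
exponent `|X|`, `X` the `p`-group of the shifts, of the normalised sum is the identity in
characteristic `p`. To keep the tournaments small, every row and every column is replaced by a path
along which partial sums are passed on, so that all nodes have degree at most `3`.
-/

set_option autoImplicit false

namespace Pool.Agent.Results.MP_128e7d_lc.AllFieldsTournaments

open Pool.Agent.TH658.Dg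

theorem result : ∃ C : ℕ, ∀ k : ℕ, 1 ≤ k →
    ∃ (V : Type) (_ : Fintype V) (T T' : V → V → Prop),
      Fintype.card V ≤ C * k ^ 10 ∧ IsTournament T ∧ IsTournament T' ∧
      (¬ ∃ φ : V ≃ V, ∀ x y, T x y ↔ T' (φ x) (φ y)) ∧ IMEquiv 1 k T T' :=
  ⟨10 ^ 15, Pool.Agent.K4H90.AllP.exists_tours⟩

end Pool.Agent.Results.MP_128e7d_lc.AllFieldsTournaments
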