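import Pool.Agent.K4H90.RU.Both

/-!
# The Weisfeiler-Leman method identifies almost all Cayley graphs and digraphs of every finite group

For every `ε > 0` there is a constant `C` such that the following holds for every finite group `G` of
order `n`. Let `T` be a random subset of `G` which contains every `x ≠ 1` independently with some
probability `p x` between `ε` and `1 - ε` (the probabilities may be different, so `T` can be any
given set after a random perturbation). Consider

* the Cayley digraph of `T`, and `k = 3`, or `k = 2` if `G` is not an elementary abelian 2-group;
* the Cayley graph of `T ∪ T⁻¹`, and `k = 11`. (All inverse-closed sets are equally likely if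
  `p x = 1 / 2` for the involutions `x` and `p x = 1 - 1 / √ 2` for the other `x ≠ 1`, and `p 1 = 0`.)

With probability at least `1 - C / √ n` a bounded number of rounds of the `k`-dimensional
Weisfeiler-Leman method distinguishes this Cayley graph or digraph from all digraphs which are not
isomorphic to it: relative to a choice of `k - 1` vertices all vertices have different colours after
`12` rounds, and a digraph is isomorphic to the Cayley graph if and only if `14` rounds do not
distinguish them.

So for all but a proportion of `C / √ n` of the Cayley graphs of every finite group the isomorphism
with any other graph is decided in polynomial time, by a bounded number of rounds of colour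
refinement of `k`-tuples, and there is a canonical labelling in polynomial time. The method is given
neither the group nor the connection set. For cyclic groups and uniform random sets such a result is
due to Verbitsky and Zhukovskii (2024). There are no exceptions, although for abelian groups of
exponent greater than two and for generalised dicyclic groups no Cayley graph has a regular
automorphism group. In the worst case the Weisfeiler-Leman dimension of Cayley graphs is not
bounded (starting results `CayleyGraphsWLDimension` and `CirculantWLDimension`).

Proof idea. Digraphs, `k = 2`: the first round determines four numbers of paths of length two of a pair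
`(v, v g)`. A triangular version of the inequality of Littlewood and Offord shows that for most `g`
with a proportion of good flips, three of them agree with those of `h` with probability
`O(n ^ (-3 / 2))`, for all but boundedly many `h`, and one with probability `O(n ^ (-1 / 2))` for
all `h`. So a positive proportion of the elements `g` has unique colours. The set of the elements
with this property in a later round is closed under products and inverses, and a
large symmetric set generates its subgroup in boundedly many steps. With high probability every
subgroup of bounded index separates all pairs of elements. For elementary abelian 2-groups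
we use numbers relative to two fixed vertices.

Graphs: we fix `1`, six guards and three selectors in general position. For given `g ≠ h` we flip
`s` and `s⁻¹`, and prescribe the other bits so that `s` is adjacent to the guards and to `g` and not
to `h`, and every other vertex which is touched by the flip is not adjacent to a guard. The selectors
give five independent numbers. The obstruction is that `s` and `h⁻¹ s` can be forced to
have the same bit, or `s⁻¹` to look like `s`; we use that an element different from `1` has at most
`3 n / 4` square roots. So all elements outside a set of bounded size have different colours after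
one round.
-/

set_option autoImplicit false

namespace Pool.Agent.Results.MP_128e7d_lc.RandomCayleyGraphs

open Finset Pool.Agent.K4H90.RC Pool.Agent.K4H90.RU

/-- The Cayley digraph of `T` if `sym` is `false`: there is an arc from `x` to `y` if `x⁻¹ * y` is in
`T`. The Cayley graph of `T ∪ T⁻¹` if `sym` is `true`. -/
def cayley {G : Type} [Group G] (sym : Bool) (T : Finset G) (x y : G) : Prop :=
  x⁻¹ * y ∈ T ∨ (sym = true ∧ y⁻¹ * x ∈ T)

/-- The dimension of the method: `2` for digraphs and groups which are not elementary abelian
2-groups, `3` for digraphs, `11` for graphs. -/
def Dimension (G : Type) [Group G] (sym : Bool) (k : ℕ) : Prop :=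
  (sym = false ∧ k = 2 ∧ ∃ g : G, g * g ≠ 1) ∨ (sym = false ∧ k = 3) ∨ (sym = true ∧ k = 11)

open Classical in
/-- The probability that a random subset which contains every `x` independently with probability
`p x` has the property `Q`. -/
noncomputable def prob {G : Type} [Fintype G] (p : G → ℝ) (Q : Finset G → Prop) : ℝ :=
  ∑ T : Finset G with Q T, ∏ x, if x ∈ T then p x else 1 - p x

theorem result (ε : ℝ) (hε : 0 < ε) : ∃ C : ℝ, ∀ (G : Type) [Group G] [Fintype G] (p : G → ℝ),
    0 ≤ p 1 ∧ p 1 ≤ 1 → (∀ x, x ≠ 1 → ε ≤ p x ∧ p x ≤ 1 - ε) →
    ∀ (sym : Bool) (k : ℕ), Dimension G sym k →
    1 - C / Real.sqrt (Fintype.card G) ≤ prob p fun T =>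
      (∃ (c : Fin k → G) (i : Fin k), ∀ x y, SameColour (cayley sym T) (cayley sym T) 12
        (Function.update c i x) (Function.update c i y) → x = y) ∧
      ∀ (W : Type) (H : W → W → Prop), NotDistinguished k 14 (cayley sym T) H ↔
        ∃ φ : G ≃ W, ∀ x y, cayley sym T x y ↔ H (φ x) (φ y) := by
  classical
  obtain ⟨C1, hC1, hmain1⟩ := bits ε hε
  obtain ⟨C2, hC2, hmain2⟩ := bits_sym ε hε
  refine ⟨C1 + C2, ?_⟩
  intro G _ _ p hp1 hpε sym k hk
  have hp : Pr p := by
    intro x
    by_cases hx : x = 1
    · rw [hx]
      exact hp1
    · have := hpε x hx
      constructor <;> linarith
  have hn : (0 : ℝ) < Fintype.card G := by exact_mod_cast Fintype.card_pos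
  have h2 : ∀ C : ℝ, 0 ≤ C → C ≤ C1 + C2 →
      C / Real.sqrt (Fintype.card G + 1) ≤ (C1 + C2) / Real.sqrt (Fintype.card G) := by
    intro C hC hCC
    exact (div_le_div_of_nonneg_left hC (Real.sqrt_pos.2 hn)
      (Real.sqrt_le_sqrt (by linarith))).trans (div_le_div_of_nonneg_right hCC (Real.sqrt_nonneg _))
  have h3 : (prob p fun T =>
      (∃ (c : Fin k → G) (i : Fin k), ∀ x y, SameColour (cayley sym T) (cayley sym T) 12
        (Function.update c i x) (Function.update c i y) → x = y) ∧
      ∀ (W : Type) (H : W → W → Prop), NotDistinguished k 14 (cayley sym T) H ↔
        ∃ φ : G ≃ W, ∀ x y, cayley sym T x y ↔ H (φ x) (φ y)) =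
      Pb p fun b => Identified k (cayley sym (univ.filter fun x => b x = true)) := by
    unfold prob
    have e2 := sum_sets (p := p) fun T => Identified k (cayley sym T)
    rw [← e2]
    refine sum_congr ?_ fun _ _ => prod_congr rfl fun _ _ => ?_
    · ext T
      simp only [mem_filter, mem_univ, true_and]
      refine and_congr_right fun _ => ⟨fun h W H h' => (h W H).1 h', fun h W H => ⟨h W H, ?_⟩⟩
      rintro ⟨φ, hφ⟩
      exact iso_not φ hφ 14
    · congr
  rw [h3, Pb_not]
  rcases hk with ⟨rfl, hk⟩ | ⟨rfl, hk⟩ | ⟨rfl, rfl⟩
  · have h1 := hmain1 G p hp hpε k (Or.inr hk)
    have e1 : ∀ b : G → Bool, cayley false (univ.filter fun x => b x = true) = cay b := by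
      intro b
      funext x y
      unfold cayley cay
      simp
    simp only [e1]
    have := h2 C1 hC1.le (by linarith)
    linarith
  · have h1 := hmain1 G p hp hpε k (Or.inl hk)
    have e1 : ∀ b : G → Bool, cayley false (univ.filter fun x => b x = true) = cay b := by
      intro b
      funext x y
      unfold cayley cay
      simp
    simp only [e1]
    have := h2 C1 hC1.le (by linarith)
    linarith
  · have h1 := hmain2 G p hp hpε
    have e1 : ∀ b : G → Bool, cayley true (univ.filter fun x => b x = true) = cayU b := by
      intro b
      funext x y
      unfold cayley cayU cs
      simp [mul_inv_rev]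
    simp only [e1]
    have := h2 C2 hC2.le (by linarith)
    linarith

end Pool.Agent.Results.MP_128e7d_lc.RandomCayleyGraphs
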