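import Pool.Agent.K4H86.OR.Main
import Pool.Agent.K4H86.OR.Base

/-!
# Graph isomorphism is not definable from oracles for structures with small bases

Let `p` be a prime. The logic `Fml k p f` has `k` variables, infinitary conjunctions, counting
quantifiers, all linear-algebraic quantifiers over algebraically closed fields of characteristic
different from `p` (for arbitrary properties of families of matrices which are invariant under
simultaneous similarity), and the Lindström quantifiers for *all* isomorphism-closed classes of
structures in which the automorphism group of a structure with `n` elements has `p`-rank at most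
`f n`. The quantifiers may be nested and used with parameters; they are applied to structures which
are defined on classes of `m`-tuples (`OutT`, `outStr`). So a formula can ask an arbitrary question
about each definable structure whose automorphism group has small `p`-rank, for instance whether
two such structures are isomorphic.

For `f = polylog a` these are oracles for all problems about structures with bases (sets of points
fixed by no nontrivial automorphism) of polylogarithmic size: the isomorphism problem for groups,
quasigroups and Latin squares, Steiner triple systems, ... . The theorem: graph isomorphism is not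
definable in the logic, not even for graphs of valency at most `3 p`: for all `k` and `a` there are
non-isomorphic graphs `G` and `H` of valency at most `3 p` such that neither `G` and `H` nor the
instances `(G, G)` and `(G, H)` of graph isomorphism can be told apart by these formulas; the same
for all functions `f` which grow more slowly than every power, in a quantitative form.
In particular there is no many-one or Turing reduction of graph isomorphism, definable in infinitary
counting logic with finitely many variables (in which everything definable in fixed-point logic with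
counting is definable), to the isomorphism problem, or to any other problem, for such structures.
The other oracles included are those for tournaments (`p = 2`), graphs with simple spectrum
(`p ≥ 3`), structures with colour classes of less than `p` elements, connected rooted graphs with
degrees less than `p`, and rigid structures (all `p`).

Proof idea. `G` and `H` are Cai-Fürer-Immerman graphs for the group `ℤ / p` over a cubic expander.
Local isomorphisms from `(G, G)` to `(G, H)` are the solutions of subsystems of a linear system
over `ℤ / p`. Two of them differ by a solution of a homogeneous subsystem, and by duality and the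
isoperimetric inequality this agrees with a global automorphism `α` of `(G, G)`. The global
automorphisms form an elementary abelian `p`-group, whose image in the automorphism group of the
output of an interpretation has small order; a chain argument shows that those which fix a
certain small number of points act trivially on the output. So the classes of the images of a tuple
under the different local isomorphisms are the same, and they define an isomorphism of the outputs.
-/

set_option autoImplicit false

namespace Pool.Agent.Results.MP_128e7d_lc.SymmetryPoorOracles

open Pool.Agent.K4H86.OR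

/-- **Graph isomorphism and oracles for structures with small bases, or few symmetries of order
`p`.** The first three parts are the theorem: no formula with the oracles defines isomorphism of
graphs of valency at most `3 p`; there are graphs which are not told apart; a quantitative form. The
other parts say which problems are among the oracles: structures with small bases, the isomorphism
problem for quasigroups (in particular for groups), (arbitrary classes of) tournaments, graphs with
simple spectrum, structures with small colour classes, and connected rooted graphs with small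
degrees. -/
theorem result (p : ℕ) (hp : p.Prime) :
    (∀ (a k : ℕ) (φ : Fml k p (polylog a)), 1 ≤ k →
      ¬ ∀ (V V' : Type) [Fintype V] [Fintype V'] (G : SimpleGraph V) (H : SimpleGraph V'),
        (∀ v, (G.neighborSet v).ncard ≤ 3 * p) → (∀ v, (H.neighborSet v).ncard ≤ 3 * p) →
        ∀ S, (Sat (G ⊕g H).Adj (fun x => x.isLeft) φ S ↔ Nonempty (G ≃g H))) ∧
    (∀ (a k : ℕ), 1 ≤ k → ∃ (V : Type) (_ : Fintype V) (G H : SimpleGraph V),
        (∀ v, (G.neighborSet v).ncard ≤ 3 * p ∧ (H.neighborSet v).ncard ≤ 3 * p) ∧
        IsEmpty (G ≃g H) ∧
        Like k p (polylog a) G.Adj (fun _ => False) H.Adj (fun _ => False) ∧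
        Like k p (polylog a) (G ⊕g G).Adj (fun x => x.isLeft)
          (G ⊕g H).Adj (fun x => x.isLeft)) ∧
    (∀ (f : ℕ → ℕ) (k N : ℕ), 1 ≤ k →
      (∀ j ≤ (209952 * p ^ 2 * (N * (Nat.log 2 N + 1))) ^ k, k * (f j + 1) ≤ N) →
      ∃ (V : Type) (_ : Fintype V) (G H : SimpleGraph V),
        2 * Fintype.card V ≤ 209952 * p ^ 2 * (N * (Nat.log 2 N + 1)) ∧
        (∀ v, (G.neighborSet v).ncard ≤ 3 * p ∧ (H.neighborSet v).ncard ≤ 3 * p) ∧
        IsEmpty (G ≃g H) ∧
        Like k p f G.Adj (fun _ => False) H.Adj (fun _ => False) ∧
        Like k p f (G ⊕g G).Adj (fun x => x.isLeft) (G ⊕g H).Adj (fun x => x.isLeft)) ∧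
    (∀ (t s : ℕ) (τ : Voc) (A : Type) [Finite A] (𝒜 : Str τ A), HasBase t 𝒜 →
      t * (Nat.log 2 (Nat.card A) + 1) ≤ s → RankLE p s 𝒜) ∧
    (∃ C : Cls p (polylog 3) pairVoc, ∀ (Q Q' : Type) [Finite Q] [Finite Q']
      (mul : Q → Q → Q) (mul' : Q' → Q' → Q'), IsQuasigroup mul → IsQuasigroup mul' →
      (C.Mem (Q ⊕ Q') (pairOp mul mul') ↔ OpIso mul mul')) ∧
    (p = 2 → ∀ (A : Type) (R : A → A → Prop), (∀ x y, x ≠ y → (R x y ↔ ¬ R y x)) →
      RankLE p 0 (ofRel R)) ∧
    (p ≠ 2 → ∀ (V : Type) [Fintype V] (G : SimpleGraph V), SimpleSpectrum G →
      RankLE p 0 (ofRel G.Adj)) ∧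
    (∀ (τ : Voc) (A C : Type) [Finite A] (𝒜 : Str τ A) (col : A → C),
      (∀ e : A ≃ A, IsIso 𝒜 𝒜 e → ∀ x, col (e x) = col x) →
      (∀ c, {x | col x = c}.ncard < p) → RankLE p 0 𝒜) ∧
    (∀ (τ : Voc) (V : Type) [Finite V] (𝒜 : Str τ V) (G : SimpleGraph V) (o : V),
      G.Connected → (∀ x, (G.neighborSet x).ncard < p) →
      (∀ e : V ≃ V, IsIso 𝒜 𝒜 e → e o = o ∧ ∀ x y, G.Adj x y → G.Adj (e x) (e y)) →
      RankLE p 0 𝒜) := by
  have hpoly : ∀ (a k : ℕ), 1 ≤ k → ∃ (V : Type) (_ : Fintype V) (G H : SimpleGraph V),
        (∀ v, (G.neighborSet v).ncard ≤ 3 * p ∧ (H.neighborSet v).ncard ≤ 3 * p) ∧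
        IsEmpty (G ≃g H) ∧
        Like k p (polylog a) G.Adj (fun _ => False) H.Adj (fun _ => False) ∧
        Like k p (polylog a) (G ⊕g G).Adj (fun x => x.isLeft)
          (G ⊕g H).Adj (fun x => x.isLeft) := by
    intro a k hk
    obtain ⟨N, hN⟩ := exists_polylog (209952 * p ^ 2) a k
    obtain ⟨V, i, G, H, _, h⟩ := or_main p hp (polylog a) k N hk hN
    exact ⟨V, i, G, H, h⟩
  refine ⟨?_, hpoly, fun f k N hk hf => or_main p hp f k N hk hf, ?_, ?_, ?_, ?_, ?_, ?_⟩
  · intro a k φ hk hφ
    obtain ⟨V, i, G, H, hval, hne, _, ψ, hψ, _⟩ := hpoly a k hk
    have hV : Nonempty V := by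
      by_contra hV
      rw [not_nonempty_iff] at hV
      exact hne.false ⟨Equiv.refl V, fun {x} => (hV.false x).elim⟩
    obtain ⟨v⟩ := hV
    have h1 := hψ φ fun _ => Sum.inl v
    rw [hφ V V G G (fun v => (hval v).1) (fun v => (hval v).1),
      hφ V V G H (fun v => (hval v).1) (fun v => (hval v).2)] at h1
    obtain ⟨e⟩ := h1.1 ⟨RelIso.refl _⟩
    exact hne.false e
  · intro t s τ A _ 𝒜 h hs
    exact rank_base hp h hs
  · exact exists_quasigroup_class hp
  · rintro rfl A R hR
    exact rank_tournament hR
  · intro hp2 V _ G hG
    exact rank_simple hp hp2 hG
  · intro τ A C _ 𝒜 col h1 h2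
    exact rank_colours hp col h1 h2
  · intro τ V _ 𝒜 G o h1 h2 h3
    exact rank_degree hp h1 h2 o h3

end Pool.Agent.Results.MP_128e7d_lc.SymmetryPoorOracles
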